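import Pool.Agent.H164Z.BsptMain

/-!
# Every countable model of ZF extends to a model of BSPT'

The extension is generic for the partial order of definable filter bases, indexed by a set of the
model, on tuples from sets of the model (bounded partial types). Collection replaces choice in
the truth lemma, Standard Part is obtained by a recursion along the natural numbers of the model,
and Bounded Idealization from the fine filter on finite subsets.
-/

set_option autoImplicit false

namespace Pool.Agent.Results.MP_d5d48f_lc.Extension

open Pool.Agent.H164Z.Bspt

universe u

/-- Every countable model `(M, E)` of ZF has an extension `(N, E')`, with `M` identified with its
image under the membership-preserving injection `j`, that satisfies BSPT' when the standard sets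
are exactly the elements of `M`. -/
theorem result (M : Type u) [Countable M] (E : M → M → Prop) (hM : IsZF E) :
    ∃ (N : Type u) (E' : N → N → Prop) (j : M → N), Function.Injective j ∧
      (∀ a b, E' (j a) (j b) ↔ E a b) ∧ IsBSPT E' (fun x => x ∈ Set.range j) :=
  main M E hM

end Pool.Agent.Results.MP_d5d48f_lc.Extension
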